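import Pool.Agent.H77.TL.Stm2
import Pool.Agent.H33.TL.TDrv
import Pool.Agent.H86.TL.TLG
import Pool.Agent.H86.TL.TPAR
import Pool.Agent.H25.TL.TLIN
import Pool.Agent.H25.TL.TMUL
import Pool.Agent.H25.TL.TINV
import Pool.Agent.H60.TL.TCH
import Pool.Agent.H60.TL.TSER
import Pool.Agent.H80.TL.AN1D
import Pool.Agent.H80.TL.AN1Y
import Pool.Agent.H40.TL.R2Red
import Pool.Agent.H40.TL.AR2

/-!
# Crew TL, parts N1M and R2M (helper14) : common lemmas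

One chunk of strips gives N1 / the explicit form of R2 on the corresponding `y`-range.
-/

set_option autoImplicit false

namespace Pool.Agent.H14.TL

open Pool.MP324 Pool.MP324.H25

theorem relAc (a b : ℝ) : Rel a b Ac cc cc := by
  apply Rcst
  have h1 := cc_lo
  have h2 := cc_hi
  rw [abs_le]
  push_cast
  constructor <;> linarith

theorem relAl2 (a b : ℝ) : Rel a b Al2 (Real.log 2) (Real.log 2) := by
  apply Rcst
  have h1 := Real.log_two_gt_d9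
  have h2 := Real.log_two_lt_d9
  rw [abs_le]
  push_cast
  constructor <;> linarith

theorem relAk (a b : ℝ) : Rel a b Ak (33 / 5) (33 / 5) := by
  apply Rcst
  rw [abs_le]
  push_cast
  constructor <;> norm_num

/-- `y ≤ 2^m - 1`, `0 ≤ y ≤ 1` imply `y ≤ m` -/
theorem le_m {m y : ℝ} (h0 : 0 ≤ y) (h1 : y ≤ 1) (h : y ≤ (2:ℝ) ^ m - 1) : y ≤ m := by
  have h2 : (1 + 1 : ℝ) ^ y ≤ 1 + y * 1 :=
    rpow_one_add_le_one_add_mul_self (by norm_num) h0 h1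
  have h3 : (2:ℝ) ^ y ≤ (2:ℝ) ^ m := by
    have e : (1 + 1 : ℝ) = 2 := by norm_num
    rw [e] at h2
    linarith
  exact (Real.rpow_le_rpow_left_iff (by norm_num)).mp h3

theorem mu_facts {m y : ℝ} (hm : 0 < m) (h0 : 0 ≤ y) (h1 : y ≤ 1) (h : y ≤ (2:ℝ) ^ m - 1) :
    0 ≤ 1 / (m + 1) ∧ 1 / (m + 1) * 4096 ≤ ((4096 : ℕ) : ℝ) ∧ 1 / (m + 1) * (1 + y) ≤ 1 := by
  have hy := le_m h0 h1 h
  have hm1 : (0:ℝ) < m + 1 := by linarith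
  refine ⟨by positivity, ?_, ?_⟩
  · rw [div_mul_eq_mul_div, div_le_iff₀ hm1]
    push_cast
    linarith
  · rw [div_mul_eq_mul_div, div_le_iff₀ hm1]
    linarith

/-! ### N1 -/

theorem n1Y_chunk (j0 j1 : ℕ) (l : List (ℕ × List ℕ))
    (hs : strips (stripY FN1Y) 4096 j0 l = true) (he : stripsEnd j0 l = j1)
    (h1 : j1 ≤ 2896) (h01 : j0 < j1) :
    ∀ m y z : ℝ, 0 < m → 0 < y → (j0 : ℝ) / 4096 ≤ y → y ≤ (j1 : ℝ) / 4096 →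
      y ≤ (2:ℝ) ^ m - 1 → 0 ≤ z →
      0 ≤ fyy m y * z ^ 2 + 2 * (fmy m y - eps m / 2 * fy m y) * z
        + (fmm m y - (Real.log 2 + eps m) * fm m y) := by
  intro m y z hm hy0 hj0 hj1 hyd hz
  subst he
  have hy1 : y < 1 := by
    have : ((stripsEnd j0 l : ℕ) : ℝ) ≤ 2896 := by exact_mod_cast h1
    linarith
  obtain ⟨hμ0, hμ1, hμ2⟩ := mu_facts hm hy0.le hy1.le hyd
  obtain ⟨R1, R2, a, b, μc, Yc, X1, X2, X3, X4, hD, hX1, hX2, hX3, hX4, hF⟩ :=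
    t_DRVY TCH_proved TSER_proved FN1Y 4096 j0 l (by norm_num) hs h1 (1 / (m + 1)) y hμ0 hμ1 hμ2
      hj0 hj1 h01
  obtain ⟨q1, q2, q3, q4⟩ := (TPAR_proved TLIN_proved TMUL_proved TINV_proved).2.1 R1 R2 a b hD
    X1 X2 X3 X4 Ac Al2 Ak _ _ _ _ _ _ _ _ _ _ _ _ _ _ hX1 hX2 hX3 hX4
    (relAc a b) (relAl2 a b) (relAk a b)
  unfold FN1Y n1Test at hF
  rw [Bool.and_eq_true, Bool.or_eq_true, Bool.and_eq_true] at hF
  obtain ⟨hF1, hF2⟩ := hF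
  refine Pool.Agent.H80.TL.AN1Y_proved TSER_proved m y hm hy0 hy1
    (TMUL_proved.2 R1 R2 a b hD _ _ _ q1 hF1) ?_ z hz
  rcases hF2 with h | ⟨h, h'⟩
  · left
    exact TMUL_proved.2 R1 R2 a b hD _ _ _ q4 h
  · right
    exact ⟨TMUL_proved.2 R1 R2 a b hD _ _ _ q2 h, TMUL_proved.2 R1 R2 a b hD _ _ _ q3 h'⟩

theorem n1D_chunk (j0 j1 : ℕ) (l : List (ℕ × List ℕ))
    (hs : strips (stripD FN1D) 4096 j0 l = true) (he : stripsEnd j0 l = j1)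
    (h1 : j1 ≤ 4095) (h01 : j0 < j1) :
    ∀ m y z : ℝ, 0 < m → 0 < y → (j0 : ℝ) / 4096 ≤ y → y ≤ (j1 : ℝ) / 4096 →
      y ≤ (2:ℝ) ^ m - 1 → 0 ≤ z →
      0 ≤ fyy m y * z ^ 2 + 2 * (fmy m y - eps m / 2 * fy m y) * z
        + (fmm m y - (Real.log 2 + eps m) * fm m y) := by
  intro m y z hm hy0 hj0 hj1 hyd hz
  subst he
  have hy1 : y < 1 := by
    have : ((stripsEnd j0 l : ℕ) : ℝ) ≤ 4095 := by exact_mod_cast h1
    linarith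
  obtain ⟨hμ0, hμ1, hμ2⟩ := mu_facts hm hy0.le hy1.le hyd
  obtain ⟨R1, R2, a, b, μc, yc, X1, X2, X3, X4, hD, hX1, hX2, hX3, hX4, hF⟩ :=
    t_DRVD TCH_proved (TLG_proved TSER_proved) FN1D 4096 j0 l (by norm_num) hs h1
      (1 / (m + 1)) y hμ0 hμ1 hμ2 hj0 hj1 h01
  obtain ⟨q1, q2, q3, q4⟩ := (TPAR_proved TLIN_proved TMUL_proved TINV_proved).1 R1 R2 a b hD
    X1 X2 X3 X4 Ac Al2 Ak _ _ _ _ _ _ _ _ _ _ _ _ _ _ hX1 hX2 hX3 hX4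
    (relAc a b) (relAl2 a b) (relAk a b)
  unfold FN1D n1Test at hF
  rw [Bool.and_eq_true, Bool.or_eq_true, Bool.and_eq_true] at hF
  obtain ⟨hF1, hF2⟩ := hF
  refine Pool.Agent.H80.TL.AN1D_proved m y hm hy0 hy1
    (TMUL_proved.2 R1 R2 a b hD _ _ _ q1 hF1) ?_ z hz
  rcases hF2 with h | ⟨h, h'⟩
  · left
    exact TMUL_proved.2 R1 R2 a b hD _ _ _ q4 h
  · right
    exact ⟨TMUL_proved.2 R1 R2 a b hD _ _ _ q2 h, TMUL_proved.2 R1 R2 a b hD _ _ _ q3 h'⟩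

/-! ### R2 -/

/-- `m ≥ m₀` gives `1/(m+1) ≤ 2442/4096` -/
theorem m0_facts {m : ℝ} (hm : m0 ≤ m) : 0 < m ∧ 1 / (m + 1) * 4096 ≤ ((2442 : ℕ) : ℝ) := by
  have h0 : (21 / 31 : ℝ) ≤ m0 := by
    unfold m0
    rw [Real.le_logb_iff_rpow_le (by norm_num) (by norm_num)]
    have h : ((2:ℝ) ^ (21 / 31 : ℝ)) ^ (31:ℕ) ≤ ((8:ℝ) / 5) ^ (31:ℕ) := by
      rw [← Real.rpow_natCast, ← Real.rpow_mul (by norm_num)]
      have e : (21 / 31 : ℝ) * ((31 : ℕ) : ℝ) = ((21 : ℕ) : ℝ) := by norm_num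
      rw [e, Real.rpow_natCast]
      norm_num
    exact le_of_pow_le_pow_left₀ (by norm_num) (by norm_num) h
  have hm1 : (0:ℝ) < m + 1 := by linarith
  constructor
  · linarith
  · rw [div_mul_eq_mul_div, div_le_iff₀ hm1]
    push_cast
    linarith

theorem r2Y_chunk (j0 j1 : ℕ) (l : List (ℕ × List ℕ))
    (hs : strips (stripY FR2Y) 2442 j0 l = true) (he : stripsEnd j0 l = j1)
    (h1 : j1 ≤ 2896) (h01 : j0 < j1) :
    ∀ m x : ℝ, m0 ≤ m → 0 < x → (j0 : ℝ) / 4096 ≤ x → x ≤ (j1 : ℝ) / 4096 →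
      x ≤ (2:ℝ) ^ m - 1 →
      (f m x - lm x) * (EE (tt m) - EE (tp m x)) ≤ (lp x - f m x) * (EE (tm m x) - EE (tt m)) := by
  intro m y hm0 hy0 hj0 hj1 hyd
  subst he
  have hy1 : y < 1 := by
    have : ((stripsEnd j0 l : ℕ) : ℝ) ≤ 2896 := by exact_mod_cast h1
    linarith
  obtain ⟨hm, hμ1⟩ := m0_facts hm0
  obtain ⟨hμ0, -, hμ2⟩ := mu_facts hm hy0.le hy1.le hyd
  obtain ⟨R1, R2, a, b, μc, Yc, X1, X2, X3, X4, hD, hX1, hX2, hX3, hX4, hF⟩ :=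
    t_DRVY TCH_proved TSER_proved FR2Y 2442 j0 l (by norm_num) hs h1 (1 / (m + 1)) y hμ0 hμ1 hμ2
      hj0 hj1 h01
  have q := (TPAR_proved TLIN_proved TMUL_proved TINV_proved).2.2.2 R1 R2 a b hD
    X1 X2 X3 X4 Ac Al2 Ak _ _ _ _ _ _ _ _ _ _ _ _ _ _ hX1 hX2 hX3 hX4
    (relAc a b) (relAl2 a b) (relAk a b)
  unfold FR2Y at hF
  refine Pool.Agent.H40.TL.R2RED_proved m y hm0 hy0 hy1 hyd ?_
  exact Pool.Agent.H40.TL.AR2Y_proved TSER_proved m y hm hy0 hy1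
    (TMUL_proved.2 R1 R2 a b hD _ _ _ q hF)

theorem r2D_chunk (j0 j1 : ℕ) (l : List (ℕ × List ℕ))
    (hs : strips (stripD FR2D) 2442 j0 l = true) (he : stripsEnd j0 l = j1)
    (h1 : j1 ≤ 4095) (h01 : j0 < j1) :
    ∀ m x : ℝ, m0 ≤ m → 0 < x → (j0 : ℝ) / 4096 ≤ x → x ≤ (j1 : ℝ) / 4096 →
      x ≤ (2:ℝ) ^ m - 1 →
      (f m x - lm x) * (EE (tt m) - EE (tp m x)) ≤ (lp x - f m x) * (EE (tm m x) - EE (tt m)) := by
  intro m y hm0 hy0 hj0 hj1 hyd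
  subst he
  have hy1 : y < 1 := by
    have : ((stripsEnd j0 l : ℕ) : ℝ) ≤ 4095 := by exact_mod_cast h1
    linarith
  obtain ⟨hm, hμ1⟩ := m0_facts hm0
  obtain ⟨hμ0, -, hμ2⟩ := mu_facts hm hy0.le hy1.le hyd
  obtain ⟨R1, R2, a, b, μc, yc, X1, X2, X3, X4, hD, hX1, hX2, hX3, hX4, hF⟩ :=
    t_DRVD TCH_proved (TLG_proved TSER_proved) FR2D 2442 j0 l (by norm_num) hs h1
      (1 / (m + 1)) y hμ0 hμ1 hμ2 hj0 hj1 h01
  have q := (TPAR_proved TLIN_proved TMUL_proved TINV_proved).2.2.1 R1 R2 a b hD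
    X1 X2 X3 X4 Ac Al2 Ak _ _ _ _ _ _ _ _ _ _ _ _ _ _ hX1 hX2 hX3 hX4
    (relAc a b) (relAl2 a b) (relAk a b)
  unfold FR2D at hF
  refine Pool.Agent.H40.TL.R2RED_proved m y hm0 hy0 hy1 hyd ?_
  exact Pool.Agent.H40.TL.AR2D_proved m y hm hy0 hy1
    (TMUL_proved.2 R1 R2 a b hD _ _ _ q hF)

end Pool.Agent.H14.TL
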