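import Pool.Agent.H14.TL.Com
import Pool.Agent.H77.TL.Num.N1Y00
import Pool.Agent.H77.TL.Num.N1Y01
import Pool.Agent.H77.TL.Num.N1D00
import Pool.Agent.H77.TL.Num.N1D01
import Pool.Agent.H77.TL.Num.N1D02
import Pool.Agent.H77.TL.Num.N1D03
import Pool.Agent.H77.TL.Num.N1D04
import Pool.Agent.H77.TL.Num.N1D05
import Pool.Agent.H77.TL.Num.N1D06
import Pool.Agent.H77.TL.Num.N1D07

/-!
# Crew TL, part N1M (helper14)
-/

set_option autoImplicit false

namespace Pool.MP324

open Pool.Agent.H14.TL

theorem t_N1M : S_N1M := by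
  intro m y z hm hy0 hyM hyd hz
  rcases le_or_gt y ((1120 : ℝ) / 4096) with h0 | h0
  · refine n1Y_chunk 0 1120 _ chunkN1Y00 endN1Y00 (by norm_num) (by norm_num) m y z hm hy0 ?_ ?_ hyd hz
    · push_cast
      linarith
    · push_cast
      linarith
  rcases le_or_gt y ((1640 : ℝ) / 4096) with h1 | h1
  · refine n1Y_chunk 1120 1640 _ chunkN1Y01 endN1Y01 (by norm_num) (by norm_num) m y z hm hy0 ?_ ?_ hyd hz
    · push_cast
      linarith
    · push_cast
      linarith
  rcases le_or_gt y ((2100 : ℝ) / 4096) with h2 | h2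
  · refine n1D_chunk 1640 2100 _ chunkN1D00 endN1D00 (by norm_num) (by norm_num) m y z hm hy0 ?_ ?_ hyd hz
    · push_cast
      linarith
    · push_cast
      linarith
  rcases le_or_gt y ((2628 : ℝ) / 4096) with h3 | h3
  · refine n1D_chunk 2100 2628 _ chunkN1D01 endN1D01 (by norm_num) (by norm_num) m y z hm hy0 ?_ ?_ hyd hz
    · push_cast
      linarith
    · push_cast
      linarith
  rcases le_or_gt y ((3097 : ℝ) / 4096) with h4 | h4
  · refine n1D_chunk 2628 3097 _ chunkN1D02 endN1D02 (by norm_num) (by norm_num) m y z hm hy0 ?_ ?_ hyd hz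
    · push_cast
      linarith
    · push_cast
      linarith
  rcases le_or_gt y ((3477 : ℝ) / 4096) with h5 | h5
  · refine n1D_chunk 3097 3477 _ chunkN1D03 endN1D03 (by norm_num) (by norm_num) m y z hm hy0 ?_ ?_ hyd hz
    · push_cast
      linarith
    · push_cast
      linarith
  rcases le_or_gt y ((3783 : ℝ) / 4096) with h6 | h6
  · refine n1D_chunk 3477 3783 _ chunkN1D04 endN1D04 (by norm_num) (by norm_num) m y z hm hy0 ?_ ?_ hyd hz
    · push_cast
      linarith
    · push_cast
      linarith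
  rcases le_or_gt y ((4003 : ℝ) / 4096) with h7 | h7
  · refine n1D_chunk 3783 4003 _ chunkN1D05 endN1D05 (by norm_num) (by norm_num) m y z hm hy0 ?_ ?_ hyd hz
    · push_cast
      linarith
    · push_cast
      linarith
  rcases le_or_gt y ((4070 : ℝ) / 4096) with h8 | h8
  · refine n1D_chunk 4003 4070 _ chunkN1D06 endN1D06 (by norm_num) (by norm_num) m y z hm hy0 ?_ ?_ hyd hz
    · push_cast
      linarith
    · push_cast
      linarith
  refine n1D_chunk 4070 4076 _ chunkN1D07 endN1D07 (by norm_num) (by norm_num) m y z hm hy0 ?_ ?_ hyd hz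
  · push_cast
    linarith
  · push_cast
    linarith

end Pool.MP324
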