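import Pool.Agent.H14.TL.Com
import Pool.Agent.H77.TL.Num.R2Y00
import Pool.Agent.H77.TL.Num.R2Y01
import Pool.Agent.H77.TL.Num.R2Y02
import Pool.Agent.H77.TL.Num.R2D00
import Pool.Agent.H77.TL.Num.R2D01
import Pool.Agent.H77.TL.Num.R2D02
import Pool.Agent.H77.TL.Num.R2D03
import Pool.Agent.H77.TL.Num.R2D04
import Pool.Agent.H77.TL.Num.R2D05

/-!
# Crew TL, part R2M (helper14)
-/

set_option autoImplicit false

namespace Pool.MP324

open Pool.Agent.H14.TL

theorem t_R2M : S_R2M := by
  intro m x hm0 hx0 hxM hxd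
  rcases le_or_gt x ((2329 : ℝ) / 4096) with h0 | h0
  · refine r2Y_chunk 0 2329 _ chunkR2Y00 endR2Y00 (by norm_num) (by norm_num) m x hm0 hx0 ?_ ?_ hxd
    · push_cast
      linarith
    · push_cast
      linarith
  rcases le_or_gt x ((2724 : ℝ) / 4096) with h1 | h1
  · refine r2Y_chunk 2329 2724 _ chunkR2Y01 endR2Y01 (by norm_num) (by norm_num) m x hm0 hx0 ?_ ?_ hxd
    · push_cast
      linarith
    · push_cast
      linarith
  rcases le_or_gt x ((2867 : ℝ) / 4096) with h2 | h2
  · refine r2Y_chunk 2724 2867 _ chunkR2Y02 endR2Y02 (by norm_num) (by norm_num) m x hm0 hx0 ?_ ?_ hxd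
    · push_cast
      linarith
    · push_cast
      linarith
  rcases le_or_gt x ((3155 : ℝ) / 4096) with h3 | h3
  · refine r2D_chunk 2867 3155 _ chunkR2D00 endR2D00 (by norm_num) (by norm_num) m x hm0 hx0 ?_ ?_ hxd
    · push_cast
      linarith
    · push_cast
      linarith
  rcases le_or_gt x ((3485 : ℝ) / 4096) with h4 | h4
  · refine r2D_chunk 3155 3485 _ chunkR2D01 endR2D01 (by norm_num) (by norm_num) m x hm0 hx0 ?_ ?_ hxd
    · push_cast
      linarith
    · push_cast
      linarith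
  rcases le_or_gt x ((3823 : ℝ) / 4096) with h5 | h5
  · refine r2D_chunk 3485 3823 _ chunkR2D02 endR2D02 (by norm_num) (by norm_num) m x hm0 hx0 ?_ ?_ hxd
    · push_cast
      linarith
    · push_cast
      linarith
  rcases le_or_gt x ((4009 : ℝ) / 4096) with h6 | h6
  · refine r2D_chunk 3823 4009 _ chunkR2D03 endR2D03 (by norm_num) (by norm_num) m x hm0 hx0 ?_ ?_ hxd
    · push_cast
      linarith
    · push_cast
      linarith
  rcases le_or_gt x ((4068 : ℝ) / 4096) with h7 | h7
  · refine r2D_chunk 4009 4068 _ chunkR2D04 endR2D04 (by norm_num) (by norm_num) m x hm0 hx0 ?_ ?_ hxd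
    · push_cast
      linarith
    · push_cast
      linarith
  refine r2D_chunk 4068 4076 _ chunkR2D05 endR2D05 (by norm_num) (by norm_num) m x hm0 hx0 ?_ ?_ hxd
  · push_cast
    linarith
  · push_cast
    linarith

end Pool.MP324
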